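import Pool.Agent.Helper6.NX.GoalsE

/-!
# Traces after boundedly many steps are tiny on the high levels (packet NX-SPEC)
-/

namespace Pool.Agent.Helper50.NX

open Matrix Equiv Filter Topology Pool.Agent.Helper15.An
open scoped ComplexOrder
open Pool.Agent.Helper6.NX

lemma itm_law (hmx : S_MX) {n : ℕ} (κ : Perm (Fin n) → ℝ) (hκ : IsLaw κ)
    (hs : ∀ g, g ∉ Alt n → κ g = 0) (j : ℕ) :
    IsLaw (itm κ j) ∧ ∀ g, g ∉ Alt n → itm κ j g = 0 := by
  induction j with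
  | zero => exact ⟨hκ, hs⟩
  | succ j ih =>
    have h := hmx n (itm κ j) (itm κ j) ih.1 ih.1
    exact ⟨h.1, h.2.1 ih.2 ih.2⟩

lemma eight_le_exp_three : (8 : ℝ) ≤ Real.exp 3 := by
  have h1 := Real.add_one_le_exp (1 : ℝ)
  have h2 : Real.exp 3 = Real.exp 1 * Real.exp 1 * Real.exp 1 := by
    rw [← Real.exp_add, ← Real.exp_add]; norm_num
  rw [h2]
  have h3 : (2 : ℝ) ≤ Real.exp 1 := by linarith
  have h4 : (2 : ℝ) * 2 ≤ Real.exp 1 * Real.exp 1 :=
    mul_le_mul h3 h3 (by norm_num) (Real.exp_pos 1).le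
  have h5 : (2 : ℝ) * 2 * 2 ≤ Real.exp 1 * Real.exp 1 * Real.exp 1 :=
    mul_le_mul h4 h3 (by norm_num) (by positivity)
  linarith

/-- Case (a): a representation of level exactly `r`, with `r ≤ c n`. -/
lemma case_a {D τ r : ℝ} (e : ℕ) (hD : 0 < D) (hτ0 : 0 ≤ τ) (hr : 1 ≤ r)
    (h1 : D * τ ^ e ≤ 2 * Real.exp (40 * r)) (h2 : Real.exp (84 * r) ≤ 2 * D) :
    D * τ ^ (e * 2) ≤ Real.exp (-r) := by
  have h3 : 0 ≤ D * τ ^ e := by positivity
  have h4 : (D * τ ^ e) ^ 2 ≤ (2 * Real.exp (40 * r)) ^ 2 := pow_le_pow_left₀ h3 h1 2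
  have h5 : D * (D * τ ^ (e * 2)) = (D * τ ^ e) ^ 2 := by
    rw [pow_mul]; ring
  have h6 : (2 * Real.exp (40 * r)) ^ 2 = 4 * Real.exp (80 * r) := by
    rw [mul_pow, ← Real.exp_nat_mul]
    norm_num
    ring_nf
  have h7 : D * (D * τ ^ (e * 2)) ≤ 4 * Real.exp (80 * r) := by rw [h5, ← h6]; exact h4
  have h8 : 8 * Real.exp (80 * r) ≤ Real.exp (83 * r) := by
    have : Real.exp (83 * r) = Real.exp (3 * r) * Real.exp (80 * r) := by
      rw [← Real.exp_add]; ring_nf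
    rw [this]
    refine mul_le_mul_of_nonneg_right ?_ (Real.exp_pos _).le
    exact eight_le_exp_three.trans (Real.exp_le_exp.mpr (by linarith))
  have h9 : Real.exp (83 * r) = Real.exp (84 * r) * Real.exp (-r) := by
    rw [← Real.exp_add]; ring_nf
  have h10 : Real.exp (84 * r) * Real.exp (-r) ≤ 2 * D * Real.exp (-r) :=
    mul_le_mul_of_nonneg_right h2 (Real.exp_pos _).le
  have h11 : D * (D * τ ^ (e * 2)) ≤ D * Real.exp (-r) := by linarith
  exact le_of_mul_le_mul_left h11 hD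

/-- Packet SPEC. -/
theorem thmSPEC (hf1 : S_F1) (hf2 : S_F2) (hf3 : S_F3) (hit : S_IT) (hmx : S_MX) : S_SPEC := by
  intro ξ γ' J hξ0 hξ1 hγ0 hγ1
  set c : ℝ := 1 / (4 * Real.exp 84) with hc
  have hE : (8 : ℝ) ≤ Real.exp 84 :=
    eight_le_exp_three.trans (Real.exp_le_exp.mpr (by norm_num))
  have hEpos : 0 < Real.exp 84 := Real.exp_pos _
  have hc0 : 0 < c := by positivity
  have hc32 : c ≤ 1 / 32 := by
    rw [hc]
    apply one_div_le_one_div_of_le (by norm_num)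
    linarith
  obtain ⟨c₇, hc7, hF2⟩ := hf2 c hc0 hc32
  obtain ⟨J2, hJ2⟩ : ∃ J2 : ℕ, 42 ≤ 2 ^ J2 * c₇ := by
    obtain ⟨N, hN⟩ := exists_nat_ge (42 / c₇)
    refine ⟨N, ?_⟩
    have h1 : (N : ℝ) ≤ 2 ^ N := by exact_mod_cast (Nat.lt_two_pow_self (n := N)).le
    have h2 : 42 / c₇ ≤ 2 ^ N := hN.trans h1
    rwa [div_le_iff₀ hc7] at h2
  refine ⟨max (J + 1) J2, ?_⟩
  have hlarge : ∀ᶠ n : ℕ in atTop, (40 : ℝ) ≤ (n : ℝ) ^ γ' :=
    ((tendsto_rpow_atTop hγ0).comp tendsto_natCast_atTop_atTop).eventually_ge_atTop 40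
  filter_upwards [hF2 ξ hξ0 hξ1, hlarge, eventually_ge_atTop 1] with n hn2 hn40 hn1
  intro κ hκ hs H1 H2 F H3 i hi
  have hn1' : (1 : ℝ) ≤ n := by exact_mod_cast hn1
  have hn0 : (0 : ℝ) < n := by linarith
  have hD : 0 < F.D i := (F.irr i).pos
  have hD' : (0 : ℝ) < F.D i := by exact_mod_cast hD
  set D : ℝ := ((F.D i : ℕ) : ℝ) with hDdef
  set τ : ℝ := (trace (wop (F.ρ i) κ)).re / D with hτ
  have hτ0 : 0 ≤ τ := div_nonneg (H3 i).2.1 hD'.le
  have hτ1 : τ ≤ 1 := by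
    rw [hτ, div_le_one hD']
    exact (H3 i).2.2
  -- the traces of the iterated mixture
  have hlaw := itm_law hmx κ hκ hs J
  have htr : ∀ i', (trace (wop (F.ρ i') (itm κ J))).re =
      F.D i' * ((trace (wop (F.ρ i') κ)).re / F.D i') ^ (2 ^ J) :=
    fun i' => hit n (F.D i') J (F.ρ i') κ (F.irr i') hκ (H3 i').1
  have hpos : ∀ i', 0 ≤ (trace (wop (F.ρ i') (itm κ J))).re := by
    intro i'
    rw [htr i']
    exact mul_nonneg (Nat.cast_nonneg _)
      (pow_nonneg (div_nonneg (H3 i').2.1 (Nat.cast_nonneg _)) _)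
  obtain ⟨hA, hB⟩ := hf1 n F (itm κ J) hlaw.1 hlaw.2 hpos
  -- larger exponents are harmless
  have hmono : ∀ a b : ℕ, a ≤ b → D * τ ^ b ≤ D * τ ^ a := fun a b hab =>
    mul_le_mul_of_nonneg_left (pow_le_pow_of_le_one hτ0 hτ1 hab) hD'.le
  have hpn : (n : ℝ) ^ (1 - γ') ≤ n := by
    calc (n : ℝ) ^ (1 - γ') ≤ (n : ℝ) ^ (1 : ℝ) :=
          Real.rpow_le_rpow_of_exponent_le hn1' (by linarith)
      _ = n := Real.rpow_one _
  have hen : Real.exp (-(n : ℝ)) ≤ Real.exp (-((n : ℝ) ^ (1 - γ'))) :=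
    Real.exp_le_exp.mpr (by linarith)
  -- the level
  classical
  have hex : ∃ r, HasFix (F.ρ i) (stab n r) := ⟨n, hasFix_top hD (F.ρ i)⟩
  set r := Nat.find hex with hr
  have hrfix : HasFix (F.ρ i) (stab n r) := Nat.find_spec hex
  have hrn : r ≤ n := Nat.find_min' hex (hasFix_top hD (F.ρ i))
  have hlt : ∀ s, s < r → ¬ HasFix (F.ρ i) (stab n s) := fun s hs' => Nat.find_min hex hs'
  have hmr : ⌈(n : ℝ) ^ (1 - γ')⌉₊ < r := by
    by_contra hcon
    push Not at hcon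
    exact hi (hrfix.mono hcon)
  have hpr : (n : ℝ) ^ (1 - γ') ≤ r := by
    calc (n : ℝ) ^ (1 - γ') ≤ (⌈(n : ℝ) ^ (1 - γ')⌉₊ : ℝ) := Nat.le_ceil _
      _ ≤ r := by exact_mod_cast hmr.le
  have hr1 : 1 ≤ r := by omega
  have hr1' : (1 : ℝ) ≤ r := by exact_mod_cast hr1
  by_cases hcase : (r : ℝ) ≤ c * n
  · -- case (a)
    have hbig : 4 * Real.exp 84 * r ≤ n := by
      rw [hc, div_mul_eq_mul_div, one_mul, le_div_iff₀ (by positivity)] at hcase
      linarith
    have h32 : 32 * (r : ℝ) ≤ n := by nlinarith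
    have h32' : 32 * r ≤ n := by exact_mod_cast h32
    have e1 := hf3 n r (F.D i) (F.ρ i) hr1 (by omega) (F.irr i).unit hrfix
      (hlt (r - 1) (by omega))
    have e2 : Real.exp (84 * r) ≤ 2 * D := by
      refine le_trans ?_ e1
      rw [mul_comm, Real.exp_nat_mul]
      refine pow_le_pow_left₀ hEpos.le ?_ r
      rw [le_div_iff₀ (by linarith)]
      nlinarith
    have e3 : D * τ ^ (2 ^ J) ≤ 2 * Real.exp (40 * r) := by
      have h1 := hA r hrn i hrfix
      rw [htr i] at h1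
      have h2 := H2 r hr1 hrn
      linarith
    have e4 := case_a (2 ^ J) hD' hτ0 hr1' e3 e2
    rw [← pow_succ] at e4
    calc D * τ ^ (2 ^ max (J + 1) J2) ≤ D * τ ^ (2 ^ (J + 1)) :=
          hmono _ _ (Nat.pow_le_pow_right (by norm_num) (le_max_left _ _))
      _ ≤ Real.exp (-(r : ℝ)) := e4
      _ ≤ Real.exp (-((n : ℝ) ^ (1 - γ'))) := Real.exp_le_exp.mpr (by linarith)
  · push Not at hcase
    refine le_trans ?_ hen
    by_cases hDn : D ≤ Real.exp (41 * n)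
    · -- case (b)
      have hfl : ⌊c * (n : ℝ)⌋₊ < r := by
        rw [Nat.floor_lt (by positivity)]
        exact hcase
      have h1 := hn2 κ hκ (fun f hf hf40 => by
        refine H1 f hf ?_
        have h2 : (n : ℝ) ^ (1 - γ') * (n : ℝ) ^ γ' = n := by
          rw [← Real.rpow_add hn0]
          simp
        have h3 : (n : ℝ) ≤ 40 * f := by exact_mod_cast hf40
        have h4 : 0 ≤ (n : ℝ) ^ (1 - γ') := by positivity
        nlinarith) (F.D i) (F.ρ i) (F.irr i).unit (hlt _ hfl)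
      have h2 : τ ≤ Real.exp (-(c₇ * n)) := by
        rw [hτ, div_le_iff₀ hD']
        exact h1
      calc D * τ ^ (2 ^ max (J + 1) J2) ≤ D * τ ^ (2 ^ J2) :=
            hmono _ _ (Nat.pow_le_pow_right (by norm_num) (le_max_right _ _))
        _ ≤ Real.exp (41 * n) * Real.exp (-(c₇ * n)) ^ (2 ^ J2) :=
            mul_le_mul hDn (pow_le_pow_left₀ hτ0 h2 _) (by positivity) (Real.exp_pos _).le
        _ = Real.exp (41 * n + ((2 ^ J2 : ℕ) : ℝ) * (-(c₇ * n))) := by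
            rw [Real.exp_add, ← Real.exp_nat_mul]
        _ ≤ Real.exp (-(n : ℝ)) := by
            apply Real.exp_le_exp.mpr
            push_cast
            nlinarith
    · -- case (c)
      push Not at hDn
      have h1 := hB i
      rw [htr i] at h1
      have h2 := H2 n hn1 le_rfl
      have h3 : D * (D * τ ^ (2 ^ J)) ≤ Real.exp (40 * n) := h1.trans h2
      have h4 : D * τ ^ (2 ^ J) ≤ Real.exp (-(n : ℝ)) := by
        have h5 : Real.exp (40 * n) = Real.exp (41 * n) * Real.exp (-(n : ℝ)) := by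
          rw [← Real.exp_add]; ring_nf
        have h6 : Real.exp (41 * n) * Real.exp (-(n : ℝ)) ≤ D * Real.exp (-(n : ℝ)) :=
          mul_le_mul_of_nonneg_right hDn.le (Real.exp_pos _).le
        rw [h5] at h3
        exact le_of_mul_le_mul_left (h3.trans h6) hD'
      calc D * τ ^ (2 ^ max (J + 1) J2) ≤ D * τ ^ (2 ^ J) :=
            hmono _ _ (Nat.pow_le_pow_right (by norm_num)
              ((Nat.le_succ J).trans (le_max_left _ _)))
        _ ≤ Real.exp (-(n : ℝ)) := h4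

end Pool.Agent.Helper50.NX
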